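import Mathlib

/-!
# A factorial transitive rational language with infinitely many maximal free submonoids

The language of all words over `{a, b}` without factor `bab` is factorial, transitive and
regular. For every prime `p` the free submonoid generated by `b` and `a^p` is contained in a
maximal free submonoid `N_p` inside the language, and `N_p ∩ a* = (a^p)*`.
-/

namespace Pool.Agent.Results.MP_df6457_lc.InfinitelyMany

variable {A : Type}

/-- `L` is factorial: every factor of a word of `L` lies in `L`. -/
def IsFactorial (L : Language A) : Prop := ∀ x y z : List A, x ++ y ++ z ∈ L → y ∈ L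

/-- `L` is transitive: for all `u, v ∈ L` there is a word `w` with `u w v ∈ L`. -/
def IsTransitive (L : Language A) : Prop :=
  ∀ u v : List A, u ∈ L → v ∈ L → ∃ w : List A, u ++ w ++ v ∈ L

/-- `M` is a submonoid of the free monoid of words. -/
def IsSubmonoid (M : Set (List A)) : Prop :=
  [] ∈ M ∧ ∀ x y : List A, x ∈ M → y ∈ M → x ++ y ∈ M

/-- The minimal generating set `(M ∖ ε) ∖ (M ∖ ε)²` of a submonoid. -/
def gen (M : Set (List A)) : Set (List A) :=
  {x | x ∈ M ∧ x ≠ [] ∧ ¬ ∃ y z : List A, y ∈ M ∧ y ≠ [] ∧ z ∈ M ∧ z ≠ [] ∧ x = y ++ z}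

/-- `M` is a free submonoid: it is a submonoid and each of its elements is in exactly one way
a product of elements of its minimal generating set. -/
def IsFree (M : Set (List A)) : Prop :=
  IsSubmonoid M ∧ ∀ w ∈ M, ∃! l : List (List A), (∀ x ∈ l, x ∈ gen M) ∧ l.flatten = w

/-- The family of the maximal free submonoids inside `L`. -/
def FM (L : Language A) : Set (Set (List A)) :=
  {M | IsFree M ∧ (∀ x ∈ M, x ∈ L) ∧
    ∀ N : Set (List A), IsFree N → (∀ x ∈ N, x ∈ L) → M ⊆ N → N = M}

/-! ### General facts -/

lemma flatten_mem {M : Set (List A)} (hM : IsSubmonoid M) :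
    ∀ l : List (List A), (∀ x ∈ l, x ∈ M) → l.flatten ∈ M
  | [], _ => by simpa using hM.1
  | x :: l, h => by
      rw [List.flatten_cons]
      exact hM.2 _ _ (h x (by simp)) (flatten_mem hM l fun y hy => h y (by simp [hy]))

lemma exists_fact {M : Set (List A)} (hM : IsSubmonoid M) :
    ∀ (n : ℕ) (w : List A), w.length ≤ n → w ∈ M →
      ∃ l : List (List A), (∀ x ∈ l, x ∈ gen M) ∧ l.flatten = w := by
  intro n
  induction n with
  | zero =>
      intro w hw _
      have : w = [] := List.length_eq_zero_iff.1 (by omega)
      exact ⟨[], by simp, by simp [this]⟩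
  | succ n ih =>
      intro w hw hwM
      by_cases h0 : w = []
      · exact ⟨[], by simp, by simp [h0]⟩
      by_cases h1 : w ∈ gen M
      · exact ⟨[w], by simpa using h1, by simp⟩
      · have h2 : ∃ y z : List A, y ∈ M ∧ y ≠ [] ∧ z ∈ M ∧ z ≠ [] ∧ w = y ++ z := by
          by_contra hc
          exact h1 ⟨hwM, h0, hc⟩
        obtain ⟨y, z, hy, hy0, hz, hz0, rfl⟩ := h2
        have hyl : 0 < y.length := List.length_pos_iff.2 hy0
        have hzl : 0 < z.length := List.length_pos_iff.2 hz0
        rw [List.length_append] at hw
        obtain ⟨l1, h11, h12⟩ := ih y (by omega) hy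
        obtain ⟨l2, h21, h22⟩ := ih z (by omega) hz
        refine ⟨l1 ++ l2, ?_, by simp [h12, h22]⟩
        intro x hx
        rcases List.mem_append.1 hx with h | h
        · exact h11 x h
        · exact h21 x h

/-- A submonoid is free as soon as factorisations into generators are unique. -/
lemma isFree_of_unique {M : Set (List A)} (hM : IsSubmonoid M)
    (h : ∀ l1 l2 : List (List A), (∀ x ∈ l1, x ∈ gen M) → (∀ x ∈ l2, x ∈ gen M) →
      l1.flatten = l2.flatten → l1 = l2) : IsFree M := by
  refine ⟨hM, fun w hw => ?_⟩
  obtain ⟨l, hl, hlw⟩ := exists_fact hM w.length w le_rfl hw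
  refine ⟨l, ⟨hl, hlw⟩, ?_⟩
  rintro l' ⟨hl', hlw'⟩
  exact h _ _ hl' hl (by rw [hlw, hlw'])

lemma unique_of_isFree {M : Set (List A)} (hM : IsFree M) (l1 l2 : List (List A))
    (h1 : ∀ x ∈ l1, x ∈ gen M) (h2 : ∀ x ∈ l2, x ∈ gen M) (h : l1.flatten = l2.flatten) :
    l1 = l2 := by
  have hm : l1.flatten ∈ M := flatten_mem hM.1 l1 fun x hx => (h1 x hx).1
  obtain ⟨l, -, hl⟩ := hM.2 _ hm
  rw [hl l1 ⟨h1, rfl⟩, hl l2 ⟨h2, h.symm⟩]

/-- Generators stay generators in a smaller submonoid containing them. -/
lemma gen_anti {M N : Set (List A)} (h : M ⊆ N) {x : List A} (hx : x ∈ gen N) (hxM : x ∈ M) :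
    x ∈ gen M := by
  refine ⟨hxM, hx.2.1, ?_⟩
  rintro ⟨y, z, hy, hy0, hz, hz0, e⟩
  exact hx.2.2 ⟨y, z, h hy, hy0, h hz, hz0, e⟩

/-- finitely many elements of a chain union lie in one member -/
lemma chain_finite {c : Set (Set (List A))} (hc : IsChain (· ⊆ ·) c) (hne : c.Nonempty) :
    ∀ l : List (List A), (∀ x ∈ l, x ∈ ⋃₀ c) → ∃ M ∈ c, ∀ x ∈ l, x ∈ M
  | [], _ => by
      obtain ⟨M, hM⟩ := hne
      exact ⟨M, hM, by simp⟩
  | x :: l, h => by
      obtain ⟨M, hM, hMl⟩ := chain_finite hc hne l fun y hy => h y (by simp [hy])
      obtain ⟨N, hN, hxN⟩ := h x (by simp)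
      rcases hc.total hM hN with h1 | h1
      · exact ⟨N, hN, by
          intro y hy
          rcases List.mem_cons.1 hy with rfl | hy
          · exact hxN
          · exact h1 (hMl y hy)⟩
      · exact ⟨M, hM, by
          intro y hy
          rcases List.mem_cons.1 hy with rfl | hy
          · exact h1 hxN
          · exact hMl y hy⟩

/-- The union of a nonempty chain of free submonoids is a free submonoid. -/
lemma isFree_sUnion {c : Set (Set (List A))} (hc : IsChain (· ⊆ ·) c) (hne : c.Nonempty)
    (hfree : ∀ M ∈ c, IsFree M) : IsFree (⋃₀ c) := by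
  have hsub : IsSubmonoid (⋃₀ c) := by
    refine ⟨?_, ?_⟩
    · obtain ⟨M, hM⟩ := hne
      exact ⟨M, hM, (hfree M hM).1.1⟩
    · intro x y hx hy
      obtain ⟨M, hM, hMl⟩ := chain_finite hc hne [x, y] (by
        intro z hz
        simp only [List.mem_cons, List.not_mem_nil, or_false] at hz
        rcases hz with rfl | rfl
        · exact hx
        · exact hy)
      exact ⟨M, hM, (hfree M hM).1.2 _ _ (hMl x (by simp)) (hMl y (by simp))⟩
  refine isFree_of_unique hsub ?_
  intro l1 l2 h1 h2 h
  obtain ⟨M, hM, hMl⟩ := chain_finite hc hne (l1 ++ l2) (by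
    intro z hz
    rcases List.mem_append.1 hz with hz | hz
    · exact (h1 z hz).1
    · exact (h2 z hz).1)
  refine unique_of_isFree (hfree M hM) l1 l2 ?_ ?_ h
  · intro x hx
    exact gen_anti (Set.subset_sUnion_of_mem hM) (h1 x hx) (hMl x (by simp [hx]))
  · intro x hx
    exact gen_anti (Set.subset_sUnion_of_mem hM) (h2 x hx) (hMl x (by simp [hx]))

/-- Every free submonoid inside `L` is contained in a maximal one. -/
lemma exists_maximal (L : Language A) {M : Set (List A)} (hM : IsFree M)
    (hML : ∀ x ∈ M, x ∈ L) : ∃ N ∈ FM L, M ⊆ N := by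
  obtain ⟨N, hMN, hN⟩ := zorn_subset_nonempty
    {N : Set (List A) | IsFree N ∧ ∀ x ∈ N, x ∈ L} (by
      intro c hcS hc hne
      refine ⟨⋃₀ c, ⟨isFree_sUnion hc hne fun N hN => (hcS hN).1, ?_⟩, ?_⟩
      · rintro x ⟨N, hN, hx⟩
        exact (hcS hN).2 x hx
      · intro N hN
        exact Set.subset_sUnion_of_mem hN) M ⟨hM, hML⟩
  refine ⟨N, ⟨hN.prop.1, hN.prop.2, ?_⟩, hMN⟩
  intro N' h1 h2 h3
  exact (Set.Subset.antisymm h3 (hN.le_of_ge ⟨h1, h2⟩ h3)).symm

/-! ### The language without factor `bab` -/

/-- All words over `{a, b}` (`a = false`, `b = true`) without factor `bab`. -/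
def L0 : Language Bool := {w | ¬ [true, false, true] <:+: w}

lemma mem_L0 {w : List Bool} : w ∈ L0 ↔ ¬ [true, false, true] <:+: w := Iff.rfl

lemma L0_factorial : IsFactorial L0 := by
  intro x y z h hc
  apply h
  obtain ⟨s, t, rfl⟩ := hc
  exact ⟨x ++ s, t ++ z, by simp⟩

lemma infix_false_cons {w : List Bool} :
    [true, false, true] <:+: false :: w ↔ [true, false, true] <:+: w := by
  rw [List.infix_cons_iff]
  constructor
  · rintro (h | h)
    · obtain ⟨t, ht⟩ := h
      simp at ht
    · exact h
  · exact Or.inr

lemma infix_append_ff {u v : List Bool} :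
    [true, false, true] <:+: u ++ [false, false] ++ v →
      [true, false, true] <:+: u ∨ [true, false, true] <:+: v := by
  induction u with
  | nil =>
      intro h
      simp only [List.nil_append, List.cons_append] at h
      rw [infix_false_cons, infix_false_cons] at h
      exact Or.inr h
  | cons c u ih =>
      intro h
      simp only [List.cons_append] at h
      rw [List.infix_cons_iff] at h
      rcases h with h | h
      · left
        rcases u with _ | ⟨d, _ | ⟨e, u⟩⟩
        · obtain ⟨t, ht⟩ := h
          simp at ht
        · obtain ⟨t, ht⟩ := h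
          simp at ht
        · obtain ⟨t, ht⟩ := h
          simp only [List.cons_append, List.nil_append, List.cons.injEq] at ht
          obtain ⟨rfl, rfl, rfl, -⟩ := ht
          exact ⟨[], u, by simp⟩
      · rcases ih h with h | h
        · left
          rw [List.infix_cons_iff]
          exact Or.inr h
        · exact Or.inr h

lemma L0_transitive : IsTransitive L0 := by
  intro u v hu hv
  refine ⟨[false, false], fun hc => ?_⟩
  rcases infix_append_ff hc with h | h
  · exact hu h
  · exact hv h

/-- transition function of a deterministic automaton for `L0` -/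
def step : Fin 4 → Bool → Fin 4
  | 0, false => 0
  | 0, true => 1
  | 1, false => 2
  | 1, true => 1
  | 2, false => 0
  | 2, true => 3
  | 3, _ => 3

/-- a deterministic automaton for `L0` -/
def aut : DFA Bool (Fin 4) where
  step := step
  start := 0
  accept := {q | q ≠ 3}

open Classical in
lemma aut_spec (w : List Bool) :
    aut.eval w = if [true, false, true] <:+: w then 3 else
      if [true] <:+ w then 1 else if [true, false] <:+ w then 2 else 0 := by
  induction w using List.reverseRecOn with
  | nil => simp [aut]
  | append_singleton w c ih =>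
      rw [DFA.eval_append_singleton, ih]
      have e1 : [true] <:+ w ++ [c] ↔ c = true := by
        rw [List.suffix_concat_iff]
        constructor
        · rintro (h | ⟨t, ht, -⟩)
          · simp at h
          · rcases t with _ | ⟨d, t⟩ <;> simp_all
        · rintro rfl
          exact Or.inr ⟨[], by simp, by simp⟩
      have e2 : [true, false] <:+ w ++ [c] ↔ c = false ∧ [true] <:+ w := by
        rw [List.suffix_concat_iff]
        constructor
        · rintro (h | ⟨t, ht, h2⟩)
          · simp at h
          · rcases t with _ | ⟨d, _ | ⟨e, t⟩⟩ <;> simp_all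
        · rintro ⟨rfl, h⟩
          exact Or.inr ⟨[true], by simp, h⟩
      have e3 : [true, false, true] <:+: w ++ [c] ↔
          (c = true ∧ [true, false] <:+ w) ∨ [true, false, true] <:+: w := by
        rw [List.infix_concat_iff, List.suffix_concat_iff]
        constructor
        · rintro ((h | ⟨t, ht, h2⟩) | h)
          · simp at h
          · left
            rcases t with _ | ⟨d, _ | ⟨e, _ | ⟨f, t⟩⟩⟩ <;> simp_all
          · exact Or.inr h
        · rintro (⟨rfl, h⟩ | h)
          · exact Or.inl (Or.inr ⟨[true, false], by simp, h⟩)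
          · exact Or.inr h
      have hnot12 : [true] <:+ w → ¬ [true, false] <:+ w := by
        rintro ⟨s, hs⟩ ⟨t, ht⟩
        have h1 : w.getLast? = some true := by rw [← hs]; simp
        have h2 : w.getLast? = some false := by rw [← ht]; simp
        rw [h1] at h2
        simp at h2
      simp only [e1, e2, e3]
      by_cases hP : [true, false, true] <:+: w
      · cases c <;> simp [hP, aut, step]
      · by_cases h1 : [true] <:+ w
        · have h2 := hnot12 h1
          cases c <;> simp [hP, h1, h2, aut, step]
        · by_cases h2 : [true, false] <:+ w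
          · cases c <;> simp [hP, h1, h2, aut, step]
          · cases c <;> simp [hP, h1, h2, aut, step]

lemma L0_regular : L0.IsRegular := by
  refine ⟨Fin 4, inferInstance, aut, ?_⟩
  ext w
  rw [DFA.mem_accepts, mem_L0]
  change aut.eval w ≠ 3 ↔ _
  rw [aut_spec]
  by_cases hP : [true, false, true] <:+: w
  · simp [hP]
  · by_cases h1 : [true] <:+ w
    · simp [hP, h1]
    · by_cases h2 : [true, false] <:+ w
      · simp [hP, h1, h2]
      · simp [hP, h1, h2]

/-! ### The free submonoids generated by `b` and `a^p` -/

/-- The submonoid generated by `b` and `a^p`. -/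
def Mp (p : ℕ) : Set (List Bool) :=
  {w | ∃ l : List (List Bool), (∀ x ∈ l, x = [true] ∨ x = List.replicate p false) ∧
    l.flatten = w}

lemma Mp_sub (p : ℕ) : IsSubmonoid (Mp p) := by
  refine ⟨⟨[], by simp, by simp⟩, ?_⟩
  rintro _ _ ⟨l1, h1, rfl⟩ ⟨l2, h2, rfl⟩
  refine ⟨l1 ++ l2, ?_, by simp⟩
  intro x hx
  rcases List.mem_append.1 hx with h | h
  · exact h1 x h
  · exact h2 x h

lemma b_mem (p : ℕ) : [true] ∈ Mp p := ⟨[[true]], by simp, by simp⟩

lemma ap_mem (p : ℕ) : List.replicate p false ∈ Mp p :=
  ⟨[List.replicate p false], by simp, by simp⟩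

lemma gen_Mp {p : ℕ} (hp : 0 < p) {x : List Bool} (hx : x ∈ gen (Mp p)) :
    x = [true] ∨ x = List.replicate p false := by
  obtain ⟨⟨l, hl, rfl⟩, h0, h1⟩ := hx
  have hne : ∀ y, (y = [true] ∨ y = List.replicate p false) → y ≠ [] := by
    rintro y (rfl | rfl)
    · simp
    · intro hc
      have := congrArg List.length hc
      simp at this
      omega
  rcases l with _ | ⟨y, _ | ⟨z, l⟩⟩
  · simp at h0
  · simpa using hl y (by simp)
  · exfalso
    apply h1
    refine ⟨y, (z :: l).flatten, ⟨[y], by simpa using hl y (by simp), by simp⟩,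
      hne y (hl y (by simp)), ⟨z :: l, fun x hx => hl x (by simp [hx]), rfl⟩, ?_, by simp⟩
    intro hc
    rw [List.flatten_cons, List.append_eq_nil_iff] at hc
    exact hne z (hl z (by simp)) hc.1

lemma unique_Mp {p : ℕ} (hp : 0 < p) : ∀ l1 l2 : List (List Bool),
    (∀ x ∈ l1, x = [true] ∨ x = List.replicate p false) →
    (∀ x ∈ l2, x = [true] ∨ x = List.replicate p false) →
    l1.flatten = l2.flatten → l1 = l2 := by
  obtain ⟨q, rfl⟩ : ∃ q, p = q + 1 := ⟨p - 1, by omega⟩
  intro l1
  induction l1 with
  | nil =>
      intro l2 _ h2 h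
      rcases l2 with _ | ⟨y, l2⟩
      · rfl
      · exfalso
        rw [List.flatten_nil, List.flatten_cons] at h
        have h' := List.append_eq_nil_iff.1 h.symm
        rcases h2 y (by simp) with rfl | rfl
        · simp at h'
        · simp [List.replicate_succ] at h'
  | cons x l1 ih =>
      intro l2 h1 h2 h
      rcases l2 with _ | ⟨y, l2⟩
      · exfalso
        rw [List.flatten_nil, List.flatten_cons] at h
        have h' := List.append_eq_nil_iff.1 h
        rcases h1 x (by simp) with rfl | rfl
        · simp at h'
        · simp [List.replicate_succ] at h'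
      · rw [List.flatten_cons, List.flatten_cons] at h
        have hxy : x = y := by
          rcases h1 x (by simp) with rfl | rfl <;> rcases h2 y (by simp) with rfl | rfl
          · rfl
          · simp [List.replicate_succ] at h
          · simp [List.replicate_succ] at h
          · rfl
        subst hxy
        rw [ih l2 (fun z hz => h1 z (by simp [hz])) (fun z hz => h2 z (by simp [hz]))
          (List.append_cancel_left h)]

lemma Mp_free {p : ℕ} (hp : 0 < p) : IsFree (Mp p) :=
  isFree_of_unique (Mp_sub p) fun l1 l2 h1 h2 h =>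
    unique_Mp hp l1 l2 (fun x hx => gen_Mp hp (h1 x hx)) (fun x hx => gen_Mp hp (h2 x hx)) h

lemma infix_replicate_append {k : ℕ} {w : List Bool} :
    [true, false, true] <:+: List.replicate k false ++ w ↔ [true, false, true] <:+: w := by
  induction k with
  | zero => simp
  | succ k ih => rw [List.replicate_succ, List.cons_append, infix_false_cons, ih]

lemma Mp_L0 {p : ℕ} (hp : 2 ≤ p) : ∀ l : List (List Bool),
    (∀ x ∈ l, x = [true] ∨ x = List.replicate p false) → l.flatten ∈ L0 := by
  obtain ⟨q, rfl⟩ : ∃ q, p = q + 2 := ⟨p - 2, by omega⟩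
  intro l
  induction l with
  | nil =>
      intro _ hc
      rw [List.flatten_nil, List.infix_nil] at hc
      simp at hc
  | cons x l ih =>
      intro h hc
      have ih' := ih fun y hy => h y (by simp [hy])
      rw [List.flatten_cons] at hc
      rcases h x (by simp) with rfl | rfl
      · rw [List.singleton_append, List.infix_cons_iff] at hc
        rcases hc with hc | hc
        · obtain ⟨t, ht⟩ := hc
          simp only [List.cons_append, List.nil_append, List.cons.injEq, true_and] at ht
          rcases l with _ | ⟨y, l⟩
          · simp at ht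
          · rw [List.flatten_cons] at ht
            rcases h y (by simp) with rfl | rfl
            · simp at ht
            · simp [List.replicate_succ] at ht
        · exact ih' hc
      · exact ih' (infix_replicate_append.1 hc)

/-- the powers of `a` in a free submonoid inside `L0` containing `b` and `a^p`, `p` prime -/
lemma powers {p : ℕ} (hp : p.Prime) {N : Set (List Bool)} (hN : IsFree N)
    (hNL : ∀ x ∈ N, x ∈ L0) (hMN : Mp p ⊆ N) {k : ℕ} (hk : List.replicate k false ∈ N) :
    p ∣ k := by
  classical
  have hex : ∃ d, 0 < d ∧ List.replicate d false ∈ N := ⟨p, hp.pos, hMN (ap_mem p)⟩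
  obtain ⟨hd0, hdN⟩ := Nat.find_spec hex
  have hmin : ∀ i, i < Nat.find hex → 0 < i → List.replicate i false ∉ N := by
    intro i hi h0 hiN
    exact Nat.find_min hex hi ⟨h0, hiN⟩
  set d := Nat.find hex with hd
  clear_value d
  have split : ∀ (k : ℕ) (y z : List Bool), List.replicate k false = y ++ z →
      ∃ i j, y = List.replicate i false ∧ z = List.replicate j false ∧ i + j = k := by
    intro k y z h
    refine ⟨y.length, z.length, ?_, ?_, ?_⟩
    · rw [List.eq_replicate_iff]
      refine ⟨rfl, fun b hb => ?_⟩
      have : b ∈ List.replicate k false := by rw [h]; simp [hb]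
      exact (List.mem_replicate.1 this).2
    · rw [List.eq_replicate_iff]
      refine ⟨rfl, fun b hb => ?_⟩
      have : b ∈ List.replicate k false := by rw [h]; simp [hb]
      exact (List.mem_replicate.1 this).2
    · have := congrArg List.length h
      simpa using this.symm
  have hdgen : List.replicate d false ∈ gen N := by
    refine ⟨hdN, ?_, ?_⟩
    · intro hc
      have := congrArg List.length hc
      simp at this
      omega
    · rintro ⟨y, z, hy, hy0, hz, hz0, e⟩
      obtain ⟨i, j, rfl, rfl, hij⟩ := split d y z e
      have hi : 0 < i := by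
        rcases Nat.eq_zero_or_pos i with rfl | h
        · simp at hy0
        · exact h
      have hj : 0 < j := by
        rcases Nat.eq_zero_or_pos j with rfl | h
        · simp at hz0
        · exact h
      exact hmin i (by omega) hi hy
  have hgen : ∀ i, List.replicate i false ∈ gen N → i = d := by
    intro i hi
    have := unique_of_isFree hN [List.replicate i false, List.replicate d false]
      [List.replicate d false, List.replicate i false]
      (by
        intro x hx
        simp only [List.mem_cons, List.not_mem_nil, or_false] at hx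
        rcases hx with rfl | rfl
        · exact hi
        · exact hdgen)
      (by
        intro x hx
        simp only [List.mem_cons, List.not_mem_nil, or_false] at hx
        rcases hx with rfl | rfl
        · exact hdgen
        · exact hi)
      (by simp [Nat.add_comm])
    simp only [List.cons.injEq] at this
    have h1 := congrArg List.length this.1
    simpa using h1
  have hdvd : ∀ k, List.replicate k false ∈ N → d ∣ k := by
    have aux : ∀ (l : List (List Bool)) (k : ℕ), (∀ x ∈ l, x ∈ gen N) →
        l.flatten = List.replicate k false → d ∣ k := by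
      intro l
      induction l with
      | nil =>
          intro k _ h
          have := congrArg List.length h
          simp at this
          simp [← this]
      | cons x l ih =>
          intro k hx h
          rw [List.flatten_cons] at h
          obtain ⟨i, j, rfl, hj, hij⟩ := split k _ _ h.symm
          have h1 := hgen i (hx _ (by simp))
          have h2 := ih j (fun y hy => hx y (by simp [hy])) hj
          rw [← hij, h1]
          exact (Nat.dvd_add_right (dvd_refl d)).2 h2
    intro k hk
    obtain ⟨l, ⟨hl, hlk⟩, -⟩ := hN.2 _ hk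
    exact aux l k hl hlk
  have hdp : d ∣ p := hdvd p (hMN (ap_mem p))
  rcases (Nat.dvd_prime hp).1 hdp with h1 | h1
  · exfalso
    have hbab : [true] ++ List.replicate d false ++ [true] ∈ N :=
      hN.1.2 _ _ (hN.1.2 _ _ (hMN (b_mem p)) hdN) (hMN (b_mem p))
    apply hNL _ hbab
    rw [h1]
    exact ⟨[], [], by simp⟩
  · rw [← h1]
    exact hdvd k hk

lemma FM_infinite : (FM L0).Infinite := by
  have h : ∀ p : Nat.Primes, ∃ N ∈ FM L0, Mp p.1 ⊆ N := fun p =>
    exists_maximal L0 (Mp_free p.2.pos) (by
      rintro _ ⟨l, hl, rfl⟩
      exact Mp_L0 p.2.two_le l hl)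
  choose N hN hMN using h
  have : Infinite Nat.Primes := Nat.Primes.infinite
  refine Set.infinite_of_injective_forall_mem (f := N) ?_ hN
  intro p q hpq
  have h1 : List.replicate q.1 false ∈ N p := by
    rw [hpq]; exact hMN q (ap_mem q.1)
  have h2 := powers p.2 (hN p).1 (hN p).2.1 (hMN p) h1
  have h3 := (Nat.prime_dvd_prime_iff_eq p.2 q.2).1 h2
  exact Subtype.ext h3

/-- There is a factorial, transitive and regular language over a two-letter alphabet that
contains infinitely many distinct maximal free submonoids. -/
theorem result : ∃ L : Language Bool, IsFactorial L ∧ IsTransitive L ∧ L.IsRegular ∧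
    (FM L).Infinite :=
  ⟨L0, L0_factorial, L0_transitive, L0_regular, FM_infinite⟩

end Pool.Agent.Results.MP_df6457_lc.InfinitelyMany
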